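import Pool.Agent.Helper13.MP.Defs
import Pool.Agent.Helper45.LN.CLO
import Pool.Agent.Helper45.HG.Ratio

/-!
# Project MP (MP_e66f84_ag), block LOWC: from sets of primes to classes in a coset
-/

set_option autoImplicit false

namespace Pool.Agent.MP

open NumberField IsDedekindDomain WithZero UniqueFactorizationMonoid
open Pool.Agent.HG (Pr nm IsOdd)

section

variable {k : Type} [Field k] [NumberField k]

private theorem isOdd_log (v : Pr k) {c : k} (hc : c ≠ 0) :
    IsOdd v c ↔ ¬ Even (log (v.valuation k c)) := by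
  have hv : v.valuation k c ≠ 0 := by simpa using hc
  constructor
  · rintro h ⟨m, hm⟩
    obtain ⟨π, hπ⟩ := v.valuation_exists_uniformizer k
    apply h (π ^ (-m))
    rw [map_zpow₀, hπ, ← exp_zsmul, ← exp_nsmul]
    conv_lhs => rw [← exp_log hv, hm]
    rw [exp_inj]
    simp only [nsmul_eq_mul, smul_eq_mul]
    push_cast
    ring
  · intro h d hd
    apply h
    have hd0 : v.valuation k d ≠ 0 := by
      intro h0
      rw [h0, zero_pow two_ne_zero] at hd
      exact hv hd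
    rw [hd, log_pow]
    exact ⟨log (v.valuation k d), by rw [two_nsmul]⟩

private theorem log_mul' (v : Pr k) {c d : k} (hc : c ≠ 0) (hd : d ≠ 0) :
    log (v.valuation k (c * d)) = log (v.valuation k c) + log (v.valuation k d) := by
  rw [map_mul, log_mul (by simpa using hc) (by simpa using hd)]

private theorem log_inv' (v : Pr k) (c : k) :
    log (v.valuation k (c⁻¹)) = - log (v.valuation k c) := by
  rw [map_inv₀, log_inv]

private theorem prod_union_le {α : Type} [DecidableEq α] (f : α → ℕ) (hf : ∀ a, 0 < f a)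
    (s t : Finset α) : ∏ a ∈ s ∪ t, f a ≤ (∏ a ∈ s, f a) * ∏ a ∈ t, f a := by
  rw [← Finset.prod_union_inter]
  exact Nat.le_mul_of_pos_right _ (Finset.prod_pos fun a _ => hf a)

end

theorem lowc : StmtLOWC := by
  classical
  intro k _ _ W hW Q Sg _ c₀ hc₀
  obtain ⟨F, hF0, hF⟩ := LN.exists_princ (k := k)
  have hBfin : {v : Pr k | ∃ I ∈ F, v.asIdeal ∣ I}.Finite := by
    have h1 : {v : Pr k | ∃ I ∈ F, v.asIdeal ∣ I} = ⋃ I ∈ F, {v : Pr k | v.asIdeal ∣ I} := by
      ext v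
      simp
    rw [h1]
    refine Set.Finite.biUnion F.finite_toSet fun I hI => ?_
    exact Ideal.finite_factors (hF0 I hI)
  obtain ⟨Bd, hBd⟩ : ∃ Bd : Finset (Pr k), Bd = hBfin.toFinset := ⟨_, rfl⟩
  have hBd' : ∀ v : Pr k, v ∈ Bd ↔ ∃ I ∈ F, v.asIdeal ∣ I := by
    intro v
    rw [hBd, Set.Finite.mem_toFinset]
    rfl
  have hJ0 : ∀ s : Finset (Pr k), (∏ v ∈ s, v.asIdeal ^ 1) ≠ 0 :=
    fun s => Finset.prod_ne_zero_iff.2 fun v _ => pow_ne_zero _ v.prime.ne_zero
  choose I hI c hc0 hc using fun s : Finset (Pr k) => hF _ (hJ0 s)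
  have hck : ∀ s, ((c s : 𝓞 k) : k) ≠ 0 := fun s h => hc0 s (RingOfIntegers.coe_eq_zero_iff.1 h)
  obtain ⟨u, hu⟩ : ∃ u : Finset (Pr k) → kˣ, ∀ s, ((u s : kˣ) : k) = (c s : k) :=
    ⟨fun s => Units.mk0 _ (hck s), fun s => rfl⟩
  -- the parity of the generators away from `Bd`
  have hpar : ∀ s, ∀ v ∉ Bd, (¬ Even (log (v.valuation k (u s : k))) ↔ v ∈ s) := by
    intro s v hv
    rw [hBd'] at hv
    have h1 : FiniteMultiplicity v.asIdeal ((∏ v ∈ s, v.asIdeal ^ 1) * I s) :=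
      FiniteMultiplicity.of_prime_left v.prime (mul_ne_zero (hJ0 s) (hF0 _ (hI s)))
    have h2 : multiplicity v.asIdeal (I s) = 0 :=
      multiplicity_eq_zero.2 fun h => hv ⟨I s, hI s, h⟩
    rw [hu, LN.val_int v (hc0 s), log_exp, hc s, multiplicity_mul v.prime h1,
      LN.mult_prod v (fun _ => 1), h2, add_zero]
    by_cases hvs : v ∈ s
    · rw [if_pos hvs]
      simp [hvs]
    · rw [if_neg hvs]
      simp [hvs]
  -- the invariant
  have hfinW : Finite (kˣ ⧸ W) := Subgroup.finite_quotient_of_finiteIndex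
  have hft : Fintype (kˣ ⧸ W) := Fintype.ofFinite _
  obtain ⟨qq, hqq⟩ : ∃ qq : Finset (Pr k) → Finset (Pr k) × (kˣ ⧸ W), ∀ s,
      qq s = (Bd.filter (fun v => ¬ Even (log (v.valuation k (u s : k)))), (u s : kˣ ⧸ W)) :=
    ⟨fun s => _, fun s => rfl⟩
  obtain ⟨A, hA⟩ : ∃ A : Finset (Finset (Pr k) × (kˣ ⧸ W)),
      A = Bd.powerset ×ˢ (Finset.univ : Finset (kˣ ⧸ W)) := ⟨_, rfl⟩
  have hqA : ∀ s, qq s ∈ A := by
    intro s
    rw [hqq, hA, Finset.mem_product]
    exact ⟨Finset.mem_powerset.2 (Finset.filter_subset _ _), Finset.mem_univ _⟩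
  have hAne : A.Nonempty := ⟨_, hqA ∅⟩
  -- the representatives
  have hrep : ∀ q : Finset (Pr k) × (kˣ ⧸ W), ∃ r : Finset (Pr k),
      ∀ s : Finset (Pr k), (∀ v ∈ s, v ∈ Q ∧ v ∉ Bd) → qq s = q →
        (∀ v ∈ r, v ∈ Q ∧ v ∉ Bd) ∧ qq r = q := by
    intro q
    by_cases h : ∃ s : Finset (Pr k), (∀ v ∈ s, v ∈ Q ∧ v ∉ Bd) ∧ qq s = q
    · obtain ⟨r, hr⟩ := h
      exact ⟨r, fun s _ _ => hr⟩
    · exact ⟨∅, fun s h1 h2 => absurd ⟨s, h1, h2⟩ h⟩
  choose rep hrep using hrep
  have hnm : ∀ v : Pr k, 0 < nm v := fun v => HG.nm_pos v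
  obtain ⟨O₀, hO₀⟩ : ∃ O : Finset (Pr k), O = (HG.finite_odd c₀.ne_zero).toFinset := ⟨_, rfl⟩
  have hO₀' : ∀ v : Pr k, v ∈ O₀ ↔ IsOdd v (c₀ : k) := by
    intro v
    rw [hO₀, Set.Finite.mem_toFinset]
    rfl
  obtain ⟨D₁, hD₁⟩ : ∃ D₁ : ℕ, D₁ = ∏ v ∈ Bd ∪ O₀, nm v := ⟨_, rfl⟩
  obtain ⟨D₂, hD₂⟩ : ∃ D₂ : ℕ, D₂ = ∏ q ∈ A, ∏ v ∈ rep q, nm v := ⟨_, rfl⟩
  have hD₁0 : 0 < D₁ := hD₁ ▸ Finset.prod_pos fun v _ => hnm v
  have hD₂0 : 0 < D₂ := hD₂ ▸ Finset.prod_pos fun q _ => Finset.prod_pos fun v _ => hnm v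
  refine ⟨(Bd : Set (Pr k)), D₁ * D₂, A.card, Bd.finite_toSet, Nat.mul_pos hD₁0 hD₂0,
    Finset.card_pos.2 hAne, fun Y S hS => ?_⟩
  have hSB : ∀ s ∈ S, ∀ v ∈ s, v ∈ Q ∧ v ∉ Bd := fun s hs v hv =>
    ⟨((hS s hs).2 v hv).1, fun h => ((hS s hs).2 v hv).2 (Finset.mem_coe.2 h)⟩
  -- the largest class
  obtain ⟨q, hq, hmax⟩ := Finset.exists_max_image A
    (fun q => (S.filter fun s => qq s = q).card) hAne
  have hcard : S.card ≤ A.card * (S.filter fun s => qq s = q).card := by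
    rw [Finset.card_eq_sum_card_fiberwise (f := qq) (t := A) fun s _ => hqA s, ← smul_eq_mul]
    exact Finset.sum_le_card_nsmul _ _ _ hmax
  -- the twists
  obtain ⟨w, hw⟩ : ∃ w : Finset (Pr k) → kˣ, ∀ s, w s = u s * (u (rep q))⁻¹ * c₀ :=
    ⟨fun s => _, fun s => rfl⟩
  have hlog : ∀ s, ∀ v : Pr k, log (v.valuation k (w s : k)) = log (v.valuation k (u s : k)) -
      log (v.valuation k (u (rep q) : k)) + log (v.valuation k (c₀ : k)) := by
    intro s v
    rw [hw, Units.val_mul, Units.val_mul, Units.val_inv_eq_inv_val,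
      log_mul' v (mul_ne_zero (u s).ne_zero (inv_ne_zero (u (rep q)).ne_zero)) c₀.ne_zero,
      log_mul' v (u s).ne_zero (inv_ne_zero (u (rep q)).ne_zero), log_inv']
    ring
  have hinj : ∀ s ∈ S, ∀ s' ∈ S, (∃ d : k, ((w s : kˣ) : k) = (w s' : k) * d ^ 2) → s = s' := by
    rintro s hs s' hs' ⟨d, hd⟩
    have hd0 : d ≠ 0 := by
      rintro rfl
      rw [zero_pow two_ne_zero, mul_zero] at hd
      exact (w s).ne_zero hd
    have hp : ∀ v ∉ Bd, (v ∈ s ↔ v ∈ s') := by
      intro v hv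
      rw [← hpar s v hv, ← hpar s' v hv]
      have h1 : log (v.valuation k (w s : k)) = log (v.valuation k (w s' : k)) +
          2 * log (v.valuation k d) := by
        rw [hd, log_mul' v (w s').ne_zero (pow_ne_zero 2 hd0), map_pow, log_pow]
        simp
      rw [hlog, hlog] at h1
      have h2 : log (v.valuation k (u s : k)) = log (v.valuation k (u s' : k)) +
          2 * log (v.valuation k d) := by linarith
      rw [h2, Int.even_add]
      simp
    ext v
    by_cases hv : v ∈ Bd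
    · exact ⟨fun h => absurd hv (hSB s hs v h).2, fun h => absurd hv (hSB s' hs' v h).2⟩
    · exact hp v hv
  refine ⟨(S.filter fun s => qq s = q).image w, ?_, ?_, ?_⟩
  · intro a ha b hb hab
    obtain ⟨s, hs, rfl⟩ := Finset.mem_image.1 ha
    obtain ⟨s', hs', rfl⟩ := Finset.mem_image.1 hb
    rw [hinj s (Finset.mem_filter.1 hs).1 s' (Finset.mem_filter.1 hs').1 hab]
  · intro a ha
    obtain ⟨s, hs, rfl⟩ := Finset.mem_image.1 ha
    obtain ⟨hsS, hsq⟩ := Finset.mem_filter.1 hs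
    obtain ⟨hr1, hr2⟩ := hrep q s (hSB s hsS) hsq
    rw [← hr2, hqq, hqq, Prod.mk.injEq] at hsq
    obtain ⟨hf, hcl⟩ := hsq
    -- odd valuations
    have hodd : ∀ v : Pr k, IsOdd v (w s : k) → v ∉ Bd ∧ (v ∈ s ∨ v ∈ rep q) ∨ v ∈ O₀ := by
      intro v hv
      rw [isOdd_log v (w s).ne_zero, hlog] at hv
      by_cases hvO : v ∈ O₀
      · exact Or.inr hvO
      left
      rw [hO₀', isOdd_log v c₀.ne_zero, not_not] at hvO
      by_cases hvB : v ∈ Bd
      · exfalso
        apply hv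
        have h1 : (v ∈ Bd.filter fun v => ¬ Even (log (v.valuation k (u s : k)))) ↔
          (v ∈ Bd.filter fun v => ¬ Even (log (v.valuation k (u (rep q) : k)))) := by rw [hf]
        rw [Finset.mem_filter, Finset.mem_filter] at h1
        have h2 : Even (log (v.valuation k (u s : k))) ↔
            Even (log (v.valuation k (u (rep q) : k))) := by tauto
        rw [Int.even_add, Int.even_sub]
        tauto
      · refine ⟨hvB, ?_⟩
        by_contra hcon
        push Not at hcon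
        apply hv
        rw [Int.even_add, Int.even_sub]
        have h1 := hpar s v hvB
        have h2 := hpar (rep q) v hvB
        tauto
    refine ⟨?_, ?_, ?_⟩
    · -- the conductor
      have hsub : ∀ v : Pr k, IsOdd v (w s : k) → v ∈ (s ∪ rep q) ∪ (Bd ∪ O₀) := by
        intro v hv
        rw [Finset.mem_union, Finset.mem_union, Finset.mem_union]
        rcases hodd v hv with ⟨_, h⟩ | h
        · exact Or.inl h
        · exact Or.inr (Or.inr h)
      have h1 : HG.cond (w s : k) =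
          ∏ v ∈ (s ∪ rep q) ∪ (Bd ∪ O₀), if IsOdd v (w s : k) then nm v else 1 := by
        unfold HG.cond
        refine finprod_eq_prod_of_mulSupport_subset _ ?_
        intro v hv
        rw [Function.mem_mulSupport] at hv
        by_contra hcon
        apply hv
        rw [if_neg fun h => hcon (Finset.mem_coe.2 (hsub v h))]
      rw [h1]
      have hrq : ∏ v ∈ rep q, nm v ≤ D₂ := by
        rw [hD₂]
        refine Nat.le_of_dvd (Finset.prod_pos fun q _ => Finset.prod_pos fun v _ => hnm v) ?_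
        exact Finset.dvd_prod_of_mem (fun q => ∏ v ∈ rep q, nm v) hq
      calc (∏ v ∈ (s ∪ rep q) ∪ (Bd ∪ O₀), if IsOdd v (w s : k) then nm v else 1)
          ≤ ∏ v ∈ (s ∪ rep q) ∪ (Bd ∪ O₀), nm v := by
            refine Finset.prod_le_prod' fun v _ => ?_
            split_ifs
            · exact le_rfl
            · exact hnm v
        _ ≤ (∏ v ∈ s ∪ rep q, nm v) * D₁ := by
            rw [hD₁]
            exact prod_union_le _ hnm _ _
        _ ≤ ((∏ v ∈ s, nm v) * ∏ v ∈ rep q, nm v) * D₁ :=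
            Nat.mul_le_mul_right _ (prod_union_le _ hnm _ _)
        _ ≤ (Y * D₂) * D₁ := Nat.mul_le_mul_right _ (Nat.mul_le_mul (hS s hsS).1 hrq)
        _ = _ := by ring
    · -- the class
      have h2 : (u (rep q))⁻¹ * u s ∈ W := by
        rw [← QuotientGroup.eq]
        exact hcl.symm
      have h3 : c₀⁻¹ * w s = (u (rep q))⁻¹ * u s := by
        rw [hw]
        rw [mul_comm (u s * (u (rep q))⁻¹) c₀, inv_mul_cancel_left, mul_comm]
      rw [h3]
      exact h2
    · intro v hv hvodd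
      rcases hodd v hvodd with ⟨_, h | h⟩ | h
      · exact (hSB s hsS v h).1
      · exact (hr1 v h).1
      · exact hc₀ v hv ((hO₀' v).1 h)
  · rw [Finset.card_image_of_injOn]
    · exact hcard
    · intro s hs s' hs' h
      exact hinj s (Finset.mem_filter.1 hs).1 s' (Finset.mem_filter.1 hs').1
        ⟨1, by rw [one_pow, mul_one]; exact congrArg _ h⟩

end Pool.Agent.MP
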